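import Mathlib
import Pool.Agent.H81.G1.Exits

set_option autoImplicit false
open Finset

/-! # Moments of the number of exits (chapter B, B-i)

`g_root` : if `g ω ≤ D (1 + log R)^a (1 + ∑ KK_i)^a` then `(E g^10)^(1/10) ≤ C R^ε`.
`exits_form` : the bound of `exits_card` in this form. -/

namespace Pool.Agent.H53.G1

open Pool.Agent.H75.Perc Pool.Agent.H75.TwoArm Pool.Agent.H34.Q1 Pool.Agent.H99.NC

lemma one_add_sum_pow_le {n : ℕ} (x : Fin n → ℝ) (hx : ∀ i, 0 ≤ x i) (k : ℕ) :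
    (1 + ∑ i, x i) ^ k ≤ ((n : ℝ) + 1) ^ k * (1 + ∑ i, x i ^ k) := by
  classical
  set s : Finset ℝ := insert 1 (univ.image x) with hs
  have hne : s.Nonempty := ⟨1, mem_insert_self _ _⟩
  set M := s.max' hne with hM
  have hM1 : 1 ≤ M := le_max' _ _ (mem_insert_self _ _)
  have hMx : ∀ i, x i ≤ M := fun i =>
    le_max' _ _ (mem_insert_of_mem (mem_image_of_mem _ (mem_univ _)))
  have hp : 0 ≤ ∑ i, x i ^ k := sum_nonneg fun i _ => pow_nonneg (hx i) _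
  have hMk : M ^ k ≤ 1 + ∑ i, x i ^ k := by
    rcases mem_insert.1 (max'_mem s hne) with h | h
    · rw [← hM] at h
      rw [h, one_pow]
      linarith
    · obtain ⟨i, -, hi⟩ := mem_image.1 h
      rw [← hM] at hi
      rw [← hi]
      have := single_le_sum (f := fun i => x i ^ k) (fun i _ => pow_nonneg (hx i) _) (mem_univ i)
      linarith
  have h1 : 1 + ∑ i, x i ≤ ((n : ℝ) + 1) * M := by
    have : ∑ i, x i ≤ n * M := by
      refine (sum_le_card_nsmul _ _ M fun i _ => hMx i).trans ?_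
      rw [card_univ, Fintype.card_fin, nsmul_eq_mul]
    linarith
  calc (1 + ∑ i, x i) ^ k ≤ (((n : ℝ) + 1) * M) ^ k := by
        refine pow_le_pow_left₀ ?_ h1 k
        have := sum_nonneg fun i (_ : i ∈ univ) => hx i
        linarith
    _ = ((n : ℝ) + 1) ^ k * M ^ k := mul_pow _ _ _
    _ ≤ _ := mul_le_mul_of_nonneg_left hMk (by positivity)

lemma one_add_log_le {R δ : ℝ} (hR : 1 ≤ R) (hδ : 0 < δ) :
    1 + Real.log R ≤ (1 + 1 / δ) * R ^ δ := by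
  have h1 : Real.log R ≤ R ^ δ / δ := Real.log_le_rpow_div (by linarith) hδ
  have h2 : 1 ≤ R ^ δ := Real.one_le_rpow hR hδ.le
  have : (1 + 1 / δ) * R ^ δ = R ^ δ + R ^ δ / δ := by ring
  linarith

/-- **moments of powers of `1 + ∑ KK_i`** -/
theorem KK_sum_moment (n k q B : ℕ) (δ : ℝ) (hδ : 0 < δ) : ∃ C : ℝ, 1 ≤ C ∧
    ∀ (F : Fin n → Finset (ℤ × ℤ) → ℤ × ℤ → ℤ × ℤ) (lb lb' : Fin n → ℤ × ℤ → ℤ × ℤ),
    (∀ i, Stp (F i) (lb i) (lb' i)) →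
    ∀ (E : Finset (ℤ × ℤ)) (W : Fin n → Finset (ℤ × ℤ)) (G : Fin n → Set (ℤ × ℤ)),
    (∀ e ∈ E, (e.1 + e.2) % 2 = 1) →
    ∀ Row : Fin n → Finset (ℤ × ℤ),
    (∀ i, ∀ c ∈ Row i, ∀ c' ∈ Row i, |c.2 - c'.2| ≤ |c.1 - c'.1| + B) →
    ∀ (Lm : Fin n → ℕ) (R : ℝ), 1 ≤ R → (∀ i, ((Lm i * (Row i).card : ℕ) : ℝ) ≤ R ^ q) →
    Ex (cp (1 / 2)) E (fun ω => (1 + ∑ i,
      (KK (F i (ω ∪ W i)) (lb i) (lb' i) E (W i) (G i) (Row i) (Lm i) : ℝ)) ^ k) ≤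
      C * R ^ (δ * k) := by
  obtain ⟨q', hq'⟩ := exists_nat_ge ((q : ℝ) / δ)
  obtain ⟨C, hC, h⟩ := KK_moment k (q' + 1) B (by omega)
  refine ⟨((n : ℝ) + 1) ^ k * (1 + n * C), ?_, ?_⟩
  · have h1 : (1 : ℝ) ≤ ((n : ℝ) + 1) ^ k := one_le_pow₀ (by linarith [(Nat.cast_nonneg n : (0:ℝ) ≤ n)])
    have h2 : (1 : ℝ) ≤ 1 + n * C := by
      have : 0 ≤ (n : ℝ) * C := by positivity
      linarith
    nlinarith
  intro F lb lb' hF E W G hE Row hRow Lm R hR hRq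
  have hq : Pb (cp (1 / 2) : ℤ × ℤ → ℝ) := fun _ => by unfold cp; norm_num
  set T : ℝ := R ^ δ with hT
  have hT1 : 1 ≤ T := Real.one_le_rpow hR hδ.le
  have hT0 : 0 < T := by linarith
  have hTq : R ^ q ≤ T ^ (q' + 1) := by
    rw [hT, ← Real.rpow_natCast, ← Real.rpow_natCast, ← Real.rpow_mul (by linarith)]
    refine Real.rpow_le_rpow_of_exponent_le hR ?_
    rw [div_le_iff₀ hδ] at hq'
    push_cast
    nlinarith
  have hKi : ∀ i, Ex (cp (1 / 2)) E (fun ω =>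
      (KK (F i (ω ∪ W i)) (lb i) (lb' i) E (W i) (G i) (Row i) (Lm i) : ℝ) ^ k) ≤ C * T ^ k := by
    intro i
    exact h (F i) (lb i) (lb' i) (hF i) E (W i) (G i) hE (Row i) (hRow i) (Lm i) T hT1
      ((hRq i).trans hTq)
  have hTk : T ^ k = R ^ (δ * k) := by
    rw [hT, ← Real.rpow_natCast, ← Real.rpow_mul (by linarith)]
  have hTk1 : 1 ≤ T ^ k := one_le_pow₀ hT1
  rw [← hTk]
  calc Ex (cp (1 / 2)) E (fun ω => (1 + ∑ i,
      (KK (F i (ω ∪ W i)) (lb i) (lb' i) E (W i) (G i) (Row i) (Lm i) : ℝ)) ^ k)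
      ≤ Ex (cp (1 / 2)) E (fun ω => ((n : ℝ) + 1) ^ k * (1 + ∑ i,
      (KK (F i (ω ∪ W i)) (lb i) (lb' i) E (W i) (G i) (Row i) (Lm i) : ℝ) ^ k)) := by
        refine Ex_mono hq fun ω _ => ?_
        exact one_add_sum_pow_le _ (fun i => Nat.cast_nonneg _) k
    _ = ((n : ℝ) + 1) ^ k * (1 + ∑ i, Ex (cp (1 / 2)) E (fun ω =>
      (KK (F i (ω ∪ W i)) (lb i) (lb' i) E (W i) (G i) (Row i) (Lm i) : ℝ) ^ k)) := by
        rw [Ex_smul, Ex_add, Ex_const, Ex_sum]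
    _ ≤ ((n : ℝ) + 1) ^ k * (1 + ∑ _i : Fin n, C * T ^ k) := by
        refine mul_le_mul_of_nonneg_left ?_ (by positivity)
        have := sum_le_sum fun i (_ : i ∈ (univ : Finset (Fin n))) => hKi i
        linarith
    _ ≤ ((n : ℝ) + 1) ^ k * ((1 + n * C) * T ^ k) := by
        refine mul_le_mul_of_nonneg_left ?_ (by positivity)
        rw [sum_const, card_univ, Fintype.card_fin, nsmul_eq_mul]
        nlinarith
    _ = _ := by ring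

/-- **(B-i)** the factor `(E g^10)^(1/10)` of `g1_row` -/
theorem g_root (n a q B : ℕ) (D ε : ℝ) (hD : 0 ≤ D) (hε : 0 < ε) : ∃ C : ℝ, 1 ≤ C ∧
    ∀ (F : Fin n → Finset (ℤ × ℤ) → ℤ × ℤ → ℤ × ℤ) (lb lb' : Fin n → ℤ × ℤ → ℤ × ℤ),
    (∀ i, Stp (F i) (lb i) (lb' i)) →
    ∀ (E : Finset (ℤ × ℤ)) (W : Fin n → Finset (ℤ × ℤ)) (G : Fin n → Set (ℤ × ℤ)),
    (∀ e ∈ E, (e.1 + e.2) % 2 = 1) →
    ∀ Row : Fin n → Finset (ℤ × ℤ),
    (∀ i, ∀ c ∈ Row i, ∀ c' ∈ Row i, |c.2 - c'.2| ≤ |c.1 - c'.1| + B) →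
    ∀ (Lm : Fin n → ℕ) (R : ℝ), 1 ≤ R → (∀ i, ((Lm i * (Row i).card : ℕ) : ℝ) ≤ R ^ q) →
    ∀ g : Finset (ℤ × ℤ) → ℝ, (∀ ω, ω ⊆ E → 0 ≤ g ω) →
    (∀ ω, ω ⊆ E → g ω ≤ D * ((1 + Real.log R) ^ a * (1 + ∑ i,
      (KK (F i (ω ∪ W i)) (lb i) (lb' i) E (W i) (G i) (Row i) (Lm i) : ℝ)) ^ a)) →
    (Ex (cp (1 / 2)) E (fun ω => g ω ^ 10)) ^ (1 / 10 : ℝ) ≤ C * R ^ ε := by
  set δ : ℝ := ε / (2 * (a + 1)) with hδ
  have hδ0 : 0 < δ := by positivity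
  obtain ⟨C, hC, h⟩ := KK_sum_moment n (a * 10) q B δ hδ0
  refine ⟨(1 + D) ^ 10 * (1 + 1 / δ) ^ (a * 10) * C, ?_, ?_⟩
  · have h1 : (1 : ℝ) ≤ (1 + D) ^ 10 := one_le_pow₀ (by linarith)
    have h2 : (1 : ℝ) ≤ (1 + 1 / δ) ^ (a * 10) := one_le_pow₀ (by
      have : 0 < 1 / δ := by positivity
      linarith)
    have h3 : (1 : ℝ) ≤ (1 + D) ^ 10 * (1 + 1 / δ) ^ (a * 10) := by nlinarith
    nlinarith
  intro F lb lb' hF E W G hE Row hRow Lm R hR hRq g hg0 hg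
  have hq : Pb (cp (1 / 2) : ℤ × ℤ → ℝ) := fun _ => by unfold cp; norm_num
  have hlog : 0 ≤ Real.log R := Real.log_nonneg hR
  set X : Finset (ℤ × ℤ) → ℝ := fun ω => 1 + ∑ i,
      (KK (F i (ω ∪ W i)) (lb i) (lb' i) E (W i) (G i) (Row i) (Lm i) : ℝ) with hX
  have hX0 : ∀ ω, 0 ≤ X ω := fun ω => by
    have : 0 ≤ ∑ i, (KK (F i (ω ∪ W i)) (lb i) (lb' i) E (W i) (G i) (Row i) (Lm i) : ℝ) :=
      sum_nonneg fun i _ => Nat.cast_nonneg _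
    rw [hX]; simp only; linarith
  have hm := h F lb lb' hF E W G hE Row hRow Lm R hR hRq
  have h1 : Ex (cp (1 / 2)) E (fun ω => g ω ^ 10) ≤
      (D ^ 10 * (1 + Real.log R) ^ (a * 10)) * (C * R ^ (δ * (a * 10 : ℕ))) := by
    calc Ex (cp (1 / 2)) E (fun ω => g ω ^ 10)
        ≤ Ex (cp (1 / 2)) E (fun ω => (D ^ 10 * (1 + Real.log R) ^ (a * 10)) * X ω ^ (a * 10)) := by
          refine Ex_mono hq fun ω hω => ?_
          refine (pow_le_pow_left₀ (hg0 ω hω) (hg ω hω) 10).trans (le_of_eq ?_)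
          rw [mul_pow, mul_pow, ← pow_mul, ← pow_mul]
          ring
      _ = (D ^ 10 * (1 + Real.log R) ^ (a * 10)) * Ex (cp (1 / 2)) E (fun ω => X ω ^ (a * 10)) :=
          Ex_smul ..
      _ ≤ _ := mul_le_mul_of_nonneg_left hm (by positivity)
  have hR0 : (0 : ℝ) < R := by linarith
  have h2 : (1 + Real.log R) ^ (a * 10) ≤ (1 + 1 / δ) ^ (a * 10) * R ^ (δ * (a * 10 : ℕ)) := by
    refine (pow_le_pow_left₀ (by linarith) (one_add_log_le hR hδ0) _).trans (le_of_eq ?_)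
    rw [mul_pow, ← Real.rpow_natCast (R ^ δ), ← Real.rpow_mul hR0.le]
  have h3 : R ^ (δ * (a * 10 : ℕ)) * R ^ (δ * (a * 10 : ℕ)) ≤ R ^ (ε * 10) := by
    rw [← Real.rpow_add hR0]
    refine Real.rpow_le_rpow_of_exponent_le hR ?_
    have e1 : δ * (2 * (a + 1)) = ε := by rw [hδ]; field_simp
    push_cast
    nlinarith
  have h4 : D ^ 10 ≤ (1 + D) ^ 10 := pow_le_pow_left₀ hD (by linarith) _
  set Q : ℝ := (1 + D) ^ 10 * (1 + 1 / δ) ^ (a * 10) * C with hQ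
  have hQ1 : 1 ≤ Q := by
    have h1 : (1 : ℝ) ≤ (1 + D) ^ 10 := one_le_pow₀ (by linarith)
    have h2 : (1 : ℝ) ≤ (1 + 1 / δ) ^ (a * 10) := one_le_pow₀ (by
      have : 0 < 1 / δ := by positivity
      linarith)
    have h3 : (1 : ℝ) ≤ (1 + D) ^ 10 * (1 + 1 / δ) ^ (a * 10) := by nlinarith
    rw [hQ]; nlinarith
  have h5 : Ex (cp (1 / 2)) E (fun ω => g ω ^ 10) ≤ Q * R ^ (ε * 10) := by
    refine h1.trans ?_
    have hp : 0 ≤ R ^ (δ * (a * 10 : ℕ)) := by positivity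
    have hl0 : 0 ≤ (1 + Real.log R) ^ (a * 10) := by positivity
    calc (D ^ 10 * (1 + Real.log R) ^ (a * 10)) * (C * R ^ (δ * (a * 10 : ℕ)))
        ≤ ((1 + D) ^ 10 * ((1 + 1 / δ) ^ (a * 10) * R ^ (δ * (a * 10 : ℕ)))) *
          (C * R ^ (δ * (a * 10 : ℕ))) := by
          refine mul_le_mul_of_nonneg_right ?_ (by positivity)
          exact mul_le_mul h4 h2 hl0 (by positivity)
      _ = Q * (R ^ (δ * (a * 10 : ℕ)) * R ^ (δ * (a * 10 : ℕ))) := by rw [hQ]; ring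
      _ ≤ _ := mul_le_mul_of_nonneg_left h3 (by linarith)
  have h0 : 0 ≤ Ex (cp (1 / 2)) E (fun ω => g ω ^ 10) := by
    rw [← Ex_const (cp (1 / 2) : ℤ × ℤ → ℝ) E 0]
    exact Ex_mono hq fun ω hω => pow_nonneg (hg0 ω hω) _
  refine (Real.rpow_le_rpow h0 h5 (by norm_num)).trans ?_
  rw [Real.mul_rpow (by linarith) (by positivity), ← Real.rpow_mul hR0.le,
    show ε * 10 * (1 / 10) = ε by ring]
  refine mul_le_mul_of_nonneg_right ?_ (by positivity)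
  calc Q ^ (1 / 10 : ℝ) ≤ Q ^ (1 : ℝ) := Real.rpow_le_rpow_of_exponent_le hQ1 (by norm_num)
    _ = Q := Real.rpow_one _

/-- the bound of `exits_card` in the form used in `g_root` -/
lemma exits_form {s0 A X s N R0 : ℕ} {K1 K2 : ℕ} {R : ℝ} (hR0 : 2 ≤ R0) (hR : (R0 : ℝ) ≤ R)
    (hs : s ≤ s0) (hN : N ≤ A * R0)
    (hX : X ≤ (9 * s * Nat.log 2 R0 + (4 * N / R0 + 2)) * (K1 + K2) + 6 * s) :
    (1 + X : ℝ) ≤ (24 * s0 + 4 * A + 3) * (1 + Real.log R) * (1 + (K1 + K2)) := by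
  have hR2 : (2 : ℝ) ≤ R := le_trans (by exact_mod_cast hR0) hR
  have hlogR : 0 ≤ Real.log R := Real.log_nonneg (by linarith)
  have h1 : 4 * N / R0 ≤ 4 * A := by
    rw [Nat.div_le_iff_le_mul_add_pred (by omega)]
    nlinarith
  have h2 : (Nat.log 2 R0 : ℝ) ≤ 2 * Real.log R := by
    have e1 : (Nat.log 2 R0 : ℝ) ≤ Real.logb 2 R0 := by
      have := Real.natLog_le_logb R0 2
      exact_mod_cast this
    have e2 : Real.logb 2 R0 ≤ Real.log R / Real.log 2 := by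
      unfold Real.logb
      exact div_le_div_of_nonneg_right (Real.log_le_log (by positivity) hR)
        (Real.log_nonneg (by norm_num))
    have e3 : Real.log R / Real.log 2 ≤ 2 * Real.log R := by
      have := Real.log_two_gt_d9
      rw [div_le_iff₀ (by linarith)]
      nlinarith
    linarith
  have h3 : (X : ℝ) ≤ (9 * s * (Nat.log 2 R0 : ℝ) + (4 * A + 2)) * (K1 + K2) + 6 * s := by
    have : X ≤ (9 * s * Nat.log 2 R0 + (4 * A + 2)) * (K1 + K2) + 6 * s :=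
      hX.trans (Nat.add_le_add_right (Nat.mul_le_mul_right _ (by omega)) _)
    exact_mod_cast this
  have hs' : (s : ℝ) ≤ s0 := by exact_mod_cast hs
  have hs0 : (0 : ℝ) ≤ s := Nat.cast_nonneg _
  have hA0 : (0 : ℝ) ≤ A := Nat.cast_nonneg _
  have hK : (0 : ℝ) ≤ K1 + K2 := by positivity
  have h4 : 9 * (s : ℝ) * (Nat.log 2 R0 : ℝ) ≤ 18 * s0 * Real.log R := by
    have : (s : ℝ) * (Nat.log 2 R0 : ℝ) ≤ s0 * (2 * Real.log R) :=
      mul_le_mul hs' h2 (Nat.cast_nonneg _) (by linarith)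
    linarith
  have h5 : (9 * s * (Nat.log 2 R0 : ℝ) + (4 * A + 2)) * (K1 + K2) ≤
      (18 * s0 * Real.log R + (4 * A + 2)) * (K1 + K2) :=
    mul_le_mul_of_nonneg_right (by linarith) hK
  have hs00 : (0 : ℝ) ≤ s0 := by linarith
  have h6 : 0 ≤ (s0 : ℝ) * Real.log R := by positivity
  have h7 : 0 ≤ (A : ℝ) * Real.log R := by positivity
  have h8 : 0 ≤ (s0 : ℝ) * (K1 + K2) := by positivity
  have h9 : 0 ≤ (A : ℝ) * Real.log R * (K1 + K2) := by positivity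
  have h10 : 0 ≤ (s0 : ℝ) * Real.log R * (K1 + K2) := by positivity
  have h11 : 0 ≤ Real.log R * (K1 + K2 : ℝ) := by positivity
  nlinarith

/-- products over blocks -/
lemma prod_exits_le {r : ℕ} {x : Fin r → ℝ} {Y : ℝ} (hx : ∀ k, 0 ≤ x k) (hY : ∀ k, x k ≤ Y) {a : ℕ}
    (hr : r ≤ a) (hY1 : 1 ≤ Y) : ∏ k, x k ≤ Y ^ a := by
  calc ∏ k, x k ≤ ∏ _k : Fin r, Y := prod_le_prod (fun k _ => hx k) fun k _ => hY k
    _ = Y ^ r := by rw [prod_const, card_univ, Fintype.card_fin]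
    _ ≤ Y ^ a := pow_le_pow_right₀ hY1 hr

end Pool.Agent.H53.G1
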