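import Mathlib
import Pool.Agent.H81.G1.F3
import Pool.Agent.H53.G1.GMom

set_option autoImplicit false
open Finset

/-! # The factor `g` of `g1_row` from `F3` (chapter B, B-i)

`gF` : upper bound of the factor `2^(5 #sp + #Z + 1) (1 + 6 #ι + TE₁ + TE₂)^(#Z + 1)` of `F3` which
depends only on bounds of the cardinals. `gF_root` : `(E gF^10)^(1/10) ≤ C R^ε`. -/

namespace Pool.Agent.H53.G1

open Pool.Agent.H75.Perc Pool.Agent.H75.TwoArm Pool.Agent.H34.Q1 Pool.Agent.H99.NC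
open Pool.Agent.H81.G1

variable {N : ℕ}

/-- `TE` with the number `s` of special columns -/
noncomputable def TB (N : ℕ) (w E W : Finset (ℤ × ℤ)) (G : Set (ℤ × ℤ)) (cr : Fin N → ℤ × ℤ)
    (s R0 : ℕ) : ℕ :=
  (9 * s * Nat.log 2 R0 + (4 * N / R0 + 2)) *
      (KK (nx w) lab plab E W G (univ.image cr) (Nat.log 2 R0) +
        KK (pv w) plab lab E W G (univ.image cr) (Nat.log 2 R0)) + 6 * s

lemma TE_le_TB {w E W : Finset (ℤ × ℤ)} {G : Set (ℤ × ℤ)} {cr : Fin N → ℤ × ℤ} {Sp : Finset ℤ}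
    {s R0 : ℕ} (h : Sp.card ≤ s) : TE N w E W G cr Sp R0 ≤ TB N w E W G cr s R0 := by
  unfold TE TB
  refine Nat.add_le_add (Nat.mul_le_mul_right _ (Nat.add_le_add_right ?_ _)) (by omega)
  exact Nat.mul_le_mul_right _ (by omega)

/-- the factor `g` -/
noncomputable def gF (z0 p0 i0 s N : ℕ) (E W₁ W₂ : Finset (ℤ × ℤ)) (G₁ G₂ : Set (ℤ × ℤ))
    (cr₁ cr₂ : Fin N → ℤ × ℤ) (R₁ R₂ : ℕ) (ω : Finset (ℤ × ℤ)) : ℝ :=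
  2 ^ (5 * p0 + (z0 + 1)) * (1 + ((6 * i0 + TB N (ω ∪ W₁) E W₁ G₁ cr₁ s R₁ +
    TB N (ω ∪ W₂) E W₂ G₂ cr₂ s R₂ : ℕ) : ℝ)) ^ (z0 + 1)

lemma gF_nonneg (z0 p0 i0 s N : ℕ) (E W₁ W₂ : Finset (ℤ × ℤ)) (G₁ G₂ : Set (ℤ × ℤ))
    (cr₁ cr₂ : Fin N → ℤ × ℤ) (R₁ R₂ : ℕ) (ω : Finset (ℤ × ℤ)) :
    0 ≤ gF z0 p0 i0 s N E W₁ W₂ G₁ G₂ cr₁ cr₂ R₁ R₂ ω := by
  unfold gF
  positivity

/-- the factor of `F3` is at most `gF` -/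
lemma F3_le_gF {z0 p0 i0 s : ℕ} {E W₁ W₂ : Finset (ℤ × ℤ)} {G₁ G₂ : Set (ℤ × ℤ)}
    {cr₁ cr₂ : Fin N → ℤ × ℤ} {R₁ R₂ : ℕ} {ω : Finset (ℤ × ℤ)} {Sp₁ Sp₂ : Finset ℤ} {z p i : ℕ}
    (hz : z ≤ z0) (hp : p ≤ p0) (hi : i ≤ i0) (h1 : Sp₁.card ≤ s) (h2 : Sp₂.card ≤ s) :
    2 ^ (5 * p + (z + 1)) * (1 + ((6 * i + TE N (ω ∪ W₁) E W₁ G₁ cr₁ Sp₁ R₁ +
      TE N (ω ∪ W₂) E W₂ G₂ cr₂ Sp₂ R₂ : ℕ) : ℝ)) ^ (z + 1) ≤
      gF z0 p0 i0 s N E W₁ W₂ G₁ G₂ cr₁ cr₂ R₁ R₂ ω := by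
  unfold gF
  have e1 : (2 : ℝ) ^ (5 * p + (z + 1)) ≤ 2 ^ (5 * p0 + (z0 + 1)) :=
    pow_le_pow_right₀ (by norm_num) (by omega)
  have hT : 6 * i + TE N (ω ∪ W₁) E W₁ G₁ cr₁ Sp₁ R₁ + TE N (ω ∪ W₂) E W₂ G₂ cr₂ Sp₂ R₂ ≤
      6 * i0 + TB N (ω ∪ W₁) E W₁ G₁ cr₁ s R₁ + TB N (ω ∪ W₂) E W₂ G₂ cr₂ s R₂ := by
    have a1 := TE_le_TB (w := ω ∪ W₁) (E := E) (W := W₁) (G := G₁) (cr := cr₁) (R0 := R₁) h1
    have a2 := TE_le_TB (w := ω ∪ W₂) (E := E) (W := W₂) (G := G₂) (cr := cr₂) (R0 := R₂) h2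
    omega
  have hT' : ((6 * i + TE N (ω ∪ W₁) E W₁ G₁ cr₁ Sp₁ R₁ +
      TE N (ω ∪ W₂) E W₂ G₂ cr₂ Sp₂ R₂ : ℕ) : ℝ) ≤ ((6 * i0 + TB N (ω ∪ W₁) E W₁ G₁ cr₁ s R₁ +
      TB N (ω ∪ W₂) E W₂ G₂ cr₂ s R₂ : ℕ) : ℝ) := by exact_mod_cast hT
  have hn : (0 : ℝ) ≤ ((6 * i + TE N (ω ∪ W₁) E W₁ G₁ cr₁ Sp₁ R₁ +
      TE N (ω ∪ W₂) E W₂ G₂ cr₂ Sp₂ R₂ : ℕ) : ℝ) := Nat.cast_nonneg _
  refine mul_le_mul e1 ?_ (by positivity) (by positivity)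
  refine (pow_le_pow_left₀ (by linarith) (by linarith) _).trans
    (pow_le_pow_right₀ (by linarith) (by omega))

lemma TB_form {s A R0 : ℕ} {w E W : Finset (ℤ × ℤ)} {G : Set (ℤ × ℤ)} {cr : Fin N → ℤ × ℤ} {R : ℝ}
    (hR0 : 2 ≤ R0) (hR : (R0 : ℝ) ≤ R) (hN : N ≤ A * R0) :
    (1 + (TB N w E W G cr s R0 : ℝ)) ≤ (24 * s + 4 * A + 3) * (1 + Real.log R) *
      (1 + ((KK (nx w) lab plab E W G (univ.image cr) (Nat.log 2 R0) : ℝ) +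
        KK (pv w) plab lab E W G (univ.image cr) (Nat.log 2 R0))) :=
  exits_form hR0 hR le_rfl hN le_rfl

/-- **(B-i)** -/
theorem gF_root (z0 p0 i0 s A B : ℕ) (ε : ℝ) (hε : 0 < ε) : ∃ C : ℝ, 1 ≤ C ∧
    ∀ (N : ℕ) (E W₁ W₂ : Finset (ℤ × ℤ)) (G₁ G₂ : Set (ℤ × ℤ)) (cr₁ cr₂ : Fin N → ℤ × ℤ)
    (R₁ R₂ : ℕ) (R : ℝ), (∀ e ∈ E, (e.1 + e.2) % 2 = 1) →
    (∀ c c', |(cr₁ c).2 - (cr₁ c').2| ≤ |(cr₁ c).1 - (cr₁ c').1| + B) →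
    (∀ c c', |(cr₂ c).2 - (cr₂ c').2| ≤ |(cr₂ c).1 - (cr₂ c').1| + B) →
    2 ≤ R₁ → 2 ≤ R₂ → (R₁ : ℝ) ≤ R → (R₂ : ℝ) ≤ R → N ≤ A * R₁ → N ≤ A * R₂ →
    (Ex (cp (1 / 2)) E (fun ω => gF z0 p0 i0 s N E W₁ W₂ G₁ G₂ cr₁ cr₂ R₁ R₂ ω ^ 10)) ^ (1 / 10 : ℝ) ≤
      C * R ^ ε := by
  set c1 : ℝ := 24 * s + 4 * A + 3 with hc1
  set D : ℝ := 2 ^ (5 * p0 + (z0 + 1)) * (6 * i0 + 2 * c1) ^ (z0 + 1) with hD
  have hc1p : 3 ≤ c1 := by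
    have h1 : (0 : ℝ) ≤ s := Nat.cast_nonneg _
    have h2 : (0 : ℝ) ≤ A := Nat.cast_nonneg _
    rw [hc1]; linarith
  have hi0 : (0 : ℝ) ≤ i0 := Nat.cast_nonneg _
  have hD0 : 0 ≤ D := by rw [hD]; positivity
  obtain ⟨C, hC, h⟩ := g_root 4 (z0 + 1) (A + 2) B D ε hD0 hε
  refine ⟨C, hC, ?_⟩
  intro N E W₁ W₂ G₁ G₂ cr₁ cr₂ R₁ R₂ R hE hs1 hs2 h21 h22 hR1 hR2 hN1 hN2
  have hR : (2 : ℝ) ≤ R := le_trans (by exact_mod_cast h21) hR1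
  have hlog : 0 ≤ Real.log R := Real.log_nonneg (by linarith)
  have hslope : ∀ cr : Fin N → ℤ × ℤ,
      (∀ c c', |(cr c).2 - (cr c').2| ≤ |(cr c).1 - (cr c').1| + B) →
      ∀ c ∈ univ.image cr, ∀ c' ∈ univ.image cr, |c.2 - c'.2| ≤ |c.1 - c'.1| + B := by
    intro cr hcr c hc c' hc'
    obtain ⟨k, -, rfl⟩ := mem_image.1 hc
    obtain ⟨l, -, rfl⟩ := mem_image.1 hc'
    exact hcr k l
  have hcard : ∀ (cr : Fin N → ℤ × ℤ) (R0 : ℕ), (R0 : ℝ) ≤ R → N ≤ A * R0 → 2 ≤ R0 →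
      ((Nat.log 2 R0 * (univ.image cr).card : ℕ) : ℝ) ≤ R ^ (A + 2) := by
    intro cr R0 hR0 hN h2
    have e1 : (univ.image cr).card ≤ N := card_image_le.trans (by rw [card_univ, Fintype.card_fin])
    have e2 : Nat.log 2 R0 ≤ R0 := Nat.log_le_self _ _
    have e3 : Nat.log 2 R0 * (univ.image cr).card ≤ R0 * (A * R0) :=
      Nat.mul_le_mul e2 (e1.trans hN)
    have e4 : (A : ℝ) ≤ R ^ A := by
      have : (A : ℝ) ≤ 2 ^ A := by exact_mod_cast Nat.lt_two_pow_self.le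
      exact this.trans (pow_le_pow_left₀ (by norm_num) hR _)
    calc ((Nat.log 2 R0 * (univ.image cr).card : ℕ) : ℝ) ≤ ((R0 * (A * R0) : ℕ) : ℝ) := by
          exact_mod_cast e3
      _ = (A : ℝ) * (R0 * R0) := by push_cast; ring
      _ ≤ R ^ A * (R * R) := by
          refine mul_le_mul e4 (mul_le_mul hR0 hR0 (Nat.cast_nonneg _) (by linarith)) ?_ ?_
          · exact mul_nonneg (Nat.cast_nonneg _) (Nat.cast_nonneg _)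
          · exact pow_nonneg (by linarith) _
      _ = R ^ (A + 2) := by ring
  refine h ![nx, pv, nx, pv] ![lab, plab, lab, plab] ![plab, lab, plab, lab] ?_ E ![W₁, W₁, W₂, W₂]
    ![G₁, G₁, G₂, G₂] hE ![univ.image cr₁, univ.image cr₁, univ.image cr₂, univ.image cr₂] ?_
    ![Nat.log 2 R₁, Nat.log 2 R₁, Nat.log 2 R₂, Nat.log 2 R₂] R (by linarith) ?_ _ ?_ ?_
  · intro i
    fin_cases i
    · exact stp_nx
    · exact stp_pv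
    · exact stp_nx
    · exact stp_pv
  · intro i
    fin_cases i
    · exact hslope _ hs1
    · exact hslope _ hs1
    · exact hslope _ hs2
    · exact hslope _ hs2
  · intro i
    fin_cases i
    · exact hcard _ _ hR1 hN1 h21
    · exact hcard _ _ hR1 hN1 h21
    · exact hcard _ _ hR2 hN2 h22
    · exact hcard _ _ hR2 hN2 h22
  · intro ω _
    exact gF_nonneg ..
  · intro ω _
    rw [Fin.sum_univ_four]
    simp only [Matrix.cons_val_zero, Matrix.cons_val_one, Matrix.cons_val]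
    have t1 := TB_form (N := N) (s := s) (A := A) (w := ω ∪ W₁) (E := E) (W := W₁) (G := G₁)
      (cr := cr₁) h21 hR1 hN1
    have t2 := TB_form (N := N) (s := s) (A := A) (w := ω ∪ W₂) (E := E) (W := W₂) (G := G₂)
      (cr := cr₂) h22 hR2 hN2
    unfold gF
    set T1 : ℝ := (TB N (ω ∪ W₁) E W₁ G₁ cr₁ s R₁ : ℝ) with hT1
    set T2 : ℝ := (TB N (ω ∪ W₂) E W₂ G₂ cr₂ s R₂ : ℝ) with hT2
    have n1 : 0 ≤ T1 := Nat.cast_nonneg _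
    have n2 : 0 ≤ T2 := Nat.cast_nonneg _
    set K1 : ℝ := (KK (nx (ω ∪ W₁)) lab plab E W₁ G₁ (univ.image cr₁) (Nat.log 2 R₁) : ℝ) with hK1
    set K2 : ℝ := (KK (pv (ω ∪ W₁)) plab lab E W₁ G₁ (univ.image cr₁) (Nat.log 2 R₁) : ℝ) with hK2
    set K3 : ℝ := (KK (nx (ω ∪ W₂)) lab plab E W₂ G₂ (univ.image cr₂) (Nat.log 2 R₂) : ℝ) with hK3
    set K4 : ℝ := (KK (pv (ω ∪ W₂)) plab lab E W₂ G₂ (univ.image cr₂) (Nat.log 2 R₂) : ℝ) with hK4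
    have k1 : 0 ≤ K1 := Nat.cast_nonneg _
    have k2 : 0 ≤ K2 := Nat.cast_nonneg _
    have k3 : 0 ≤ K3 := Nat.cast_nonneg _
    have k4 : 0 ≤ K4 := Nat.cast_nonneg _
    set Y : ℝ := (1 + Real.log R) * (1 + (K1 + K2 + K3 + K4)) with hY
    have hY1 : 1 ≤ Y := by rw [hY]; nlinarith [mul_nonneg hlog (by positivity : 0 ≤ K1 + K2 + K3 + K4)]
    have u1 : 1 + T1 ≤ c1 * Y := by
      refine t1.trans ?_
      rw [hY, ← hc1, mul_assoc]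
      refine mul_le_mul_of_nonneg_left ?_ (by linarith)
      exact mul_le_mul_of_nonneg_left (by linarith) (by linarith)
    have u2 : 1 + T2 ≤ c1 * Y := by
      refine t2.trans ?_
      rw [hY, ← hc1, mul_assoc]
      refine mul_le_mul_of_nonneg_left ?_ (by linarith)
      exact mul_le_mul_of_nonneg_left (by linarith) (by linarith)
    have u3 : 1 + ((6 * i0 + TB N (ω ∪ W₁) E W₁ G₁ cr₁ s R₁ +
        TB N (ω ∪ W₂) E W₂ G₂ cr₂ s R₂ : ℕ) : ℝ) ≤ (6 * i0 + 2 * c1) * Y := by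
      push_cast
      rw [← hT1, ← hT2]
      nlinarith [mul_le_mul_of_nonneg_left hY1 hi0]
    calc 2 ^ (5 * p0 + (z0 + 1)) * (1 + ((6 * i0 + TB N (ω ∪ W₁) E W₁ G₁ cr₁ s R₁ +
        TB N (ω ∪ W₂) E W₂ G₂ cr₂ s R₂ : ℕ) : ℝ)) ^ (z0 + 1)
        ≤ 2 ^ (5 * p0 + (z0 + 1)) * ((6 * i0 + 2 * c1) * Y) ^ (z0 + 1) :=
          mul_le_mul_of_nonneg_left (pow_le_pow_left₀ (by positivity) u3 _) (by positivity)
      _ = D * ((1 + Real.log R) ^ (z0 + 1) * (1 + (K1 + K2 + K3 + K4)) ^ (z0 + 1)) := by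
          rw [hD, hY, mul_pow, mul_pow]; ring

end Pool.Agent.H53.G1
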