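import Mathlib
import Pool.Agent.Q1.M6b.NMom
import Pool.Agent.H81.G1.Glu

set_option autoImplicit false
open Finset

/-! # The moment of `4 ^ N` from the hypotheses of `count_loops` for all configurations -/

namespace Pool.Agent.H53.G1

open Pool.Agent.H75.Perc Pool.Agent.H75.TwoArm Pool.Agent.H19.Q1 Pool.Agent.H43.Q1
open Pool.Agent.Q1 Pool.Agent.H34.Q1 Pool.Agent.Q1.M6b.Nest
open Pool.Agent.Q1.M6b.Gd (kap_exp)
open Pool.Agent.H99.NC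

/-- the hypotheses of `count_loops` for one configuration -/
structure CntHyp (w : Finset (ℤ × ℤ)) (E : Finset (ℤ × ℤ)) (v : ℤ × ℤ) (Gt : Finset (ℤ × ℤ))
    (m : ℕ) (Bl G : Fin m → Set (ℤ × ℤ)) (x : Fin m → ℤ × ℤ) (r M : Fin m → ℤ)
    (Kv Kf : Set (ℤ × ℤ)) : Prop where
  hK : ∀ (O : Set (ℤ × ℤ)) (hO : O ∈ Lp w v), (∀ g ∈ Gt, g ∉ O) →
    (∀ u ∈ Kv, ixv hO.2.1.toFinset u = 0) ∧ ∀ f ∈ Kf, ixf hO.2.1.toFinset f = 0
  hW : ∀ O ∈ Lp w v, (∀ g ∈ Gt, g ∉ O) → ∀ c ∈ O, lab c ∉ E →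
    (∀ i, lab c ∉ Bl i) → vx c ∈ Kv ∨ fi c ∈ Kf
  hB : ∀ i, BoxGeo w v Gt (Bl i) (G i) (x i) (r i) (M i)

lemma around_finite_of (w E : Finset (ℤ × ℤ)) (v : ℤ × ℤ) (g : ℤ) :
    (around w (E : Set (ℤ × ℤ)) v g).Finite := by
  have h1 : (around w (E : Set (ℤ × ℤ)) v g) ⊆
      (fun c => Set.range (fun i : ℕ => (nx w)^[i] c)) '' {c | lab c ∈ E} := by
    rintro O ⟨⟨c, hc⟩, -, h2, -⟩
    refine ⟨c, ?_, hc.symm⟩
    exact h2 c (by rw [hc]; exact ⟨0, rfl⟩)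
  refine Set.Finite.subset (Set.Finite.image _ ?_) h1
  have h3 : {c : ℤ × ℤ | lab c ∈ E} ⊆ ⋃ e ∈ E, (Set.Icc (e.1 - 1) (e.1 + 1)) ×ˢ
      (Set.Icc (e.2 - 1) (e.2 + 1)) := by
    intro c hc
    have h4 := lab_near c
    rw [abs_le, abs_le] at h4
    refine Set.mem_iUnion₂.2 ⟨lab c, hc, ?_⟩
    rw [Set.mem_prod, Set.mem_Icc, Set.mem_Icc]
    omega
  refine Set.Finite.subset ?_ h3
  exact Set.Finite.biUnion (Finset.finite_toSet E) fun e _ =>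
    (Set.finite_Icc _ _).prod (Set.finite_Icc _ _)

/-- **The moment.** -/
theorem count_moment (m : ℕ) : ∃ (Λ : ℤ) (C : ℝ), 1 ≤ Λ ∧ 0 < C ∧
    ∀ (R : ℕ) (E V : Finset (ℤ × ℤ)) (o : ℤ) (v : ℤ × ℤ), Disjoint E V →
    (∀ e ∈ E, (e.1 + e.2) % 2 = 1) → (∀ e ∈ E, 2 * o ≤ e.1 ∧ e.1 ≤ 2 * o + 2 * R + 1) →
    ∀ (Gt : Finset (ℤ × ℤ)) (Bl G : Fin m → Set (ℤ × ℤ)) (x : Fin m → ℤ × ℤ) (r M : Fin m → ℤ)
      (Kv Kf : Finset (ℤ × ℤ) → Set (ℤ × ℤ)),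
    (∀ ω, ω ⊆ E → CntHyp (ω ∪ V) E v Gt m Bl G x r M (Kv ω) (Kf ω)) →
    (∀ i, 0 ≤ r i) → (∀ i, Λ * (r i + 1) ≤ M i) → (∀ i, OneType E V (G i) (x i) (M i)) →
    Ex (fun _ => (1 / 2 : ℝ)) E (fun ω => (4 : ℝ) ^ (Lp (ω ∪ V) v).ncard) ≤
      4 ^ Gt.card * (C * ((R : ℝ) + 1) ^ (25 / 32 : ℝ)) := by
  classical
  obtain ⟨Λ, hΛ, hk⟩ := kap_exp ((16 : ℝ) ^ m) (one_le_pow₀ (by norm_num))
  obtain ⟨C, hC, hN⟩ := N_moment m 1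
  refine ⟨Λ, C, hΛ, hC, ?_⟩
  intro R E V o v hd hodd hbox Gt Bl G x r M Kv Kf hyp hr hM hT
  have hq : Pb (fun _ : ℤ × ℤ => (1 / 2 : ℝ)) := fun _ => by norm_num
  set Wd : Fin m → Finset (ℤ × ℤ) := fun i =>
    (Icc ((x i).1 - (r i + 1)) ((x i).1 + (r i + 1))) ×ˢ
      (Icc ((x i).2 - (r i + 1)) ((x i).2 + (r i + 1))) with hWd
  have hWm : ∀ i c, c ∈ Wd i ↔ |c.1 - (x i).1| ≤ r i + 1 ∧ |c.2 - (x i).2| ≤ r i + 1 := by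
    intro i c
    rw [hWd]
    simp only
    rw [mem_product, mem_Icc, mem_Icc, abs_le, abs_le]
    constructor
    · rintro ⟨h1, h2⟩; omega
    · rintro ⟨h1, h2⟩; omega
  set κ : Fin m → Finset (ℤ × ℤ) → ℕ := fun i ω =>
    (kapG (nx (ω ∪ V)) lab plab (G i) (Wd i) (M i)).card with hκ
  have hcount : ∀ ω, ω ⊆ E → (Lp (ω ∪ V) v).ncard ≤
      (around ω E v 0).ncard + (Gt.card + ∑ i, κ i ω) + 1 := by
    intro ω hω
    have h := hyp ω hω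
    have h1 := (count_loops (E := (E : Set (ℤ × ℤ))) (Wd := Wd) (around_finite_of _ _ _ _) h.hK h.hW h.hB
      (fun i c h3 h4 => (hWm i c).2 ⟨h3, h4⟩)).2
    rw [around_union (ω := ω) (V := V) (fun e he he' => disjoint_left.1 hd he' he)] at h1
    exact h1
  -- the number minus the gates
  set N' : Finset (ℤ × ℤ) → ℕ := fun ω => (Lp (ω ∪ V) v).ncard - Gt.card with hN'
  have hN1 : ∀ ω, ω ⊆ E → N' ω ≤ (around ω E v 0).ncard + 1 + ∑ i, κ i ω := by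
    intro ω hω
    have := hcount ω hω
    rw [hN']
    simp only
    omega
  have hκ4 : ∀ i, Ex (fun _ => (1 / 2 : ℝ)) E (fun ω => ((16 : ℝ) ^ m) ^ κ i ω) ≤ 4 := by
    intro i
    exact hk nx lab plab stp_nx E V (G i) hodd (x i) (r i + 1) (M i) (by have := hr i; omega)
      (hM i) (hT i) (Wd i) (fun c hc => (hWm i c).1 hc)
  have h5 := hN R E o v hodd hbox N' κ hN1 hκ4
  calc Ex (fun _ => (1 / 2 : ℝ)) E (fun ω => (4 : ℝ) ^ (Lp (ω ∪ V) v).ncard)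
      ≤ Ex (fun _ => (1 / 2 : ℝ)) E (fun ω => (4 : ℝ) ^ Gt.card * (4 : ℝ) ^ N' ω) := by
        refine Ex_mono hq fun ω _ => ?_
        rw [← pow_add]
        refine pow_le_pow_right₀ (by norm_num) ?_
        rw [hN']
        simp only
        omega
    _ = (4 : ℝ) ^ Gt.card * Ex (fun _ => (1 / 2 : ℝ)) E (fun ω => (4 : ℝ) ^ N' ω) := Ex_smul _ _ _ _
    _ ≤ _ := mul_le_mul_of_nonneg_left h5 (by positivity)

/-- **The moment**, at most `l` boxes, at most `g` gates, `R' ≤ A R`. -/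
theorem count_moment_le (l g A : ℕ) : ∃ (Λ : ℤ) (C : ℝ), 1 ≤ Λ ∧ 0 < C ∧
    ∀ (R R' : ℕ) (E V : Finset (ℤ × ℤ)) (o : ℤ) (v : ℤ × ℤ), R' + 1 ≤ A * (R + 1) → Disjoint E V →
    (∀ e ∈ E, (e.1 + e.2) % 2 = 1) → (∀ e ∈ E, 2 * o ≤ e.1 ∧ e.1 ≤ 2 * o + 2 * R' + 1) →
    ∀ (m : ℕ), m ≤ l → ∀ (Gt : Finset (ℤ × ℤ)), Gt.card ≤ g →
    ∀ (Bl G : Fin m → Set (ℤ × ℤ)) (x : Fin m → ℤ × ℤ) (r M : Fin m → ℤ)
      (Kv Kf : Finset (ℤ × ℤ) → Set (ℤ × ℤ)),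
    (∀ ω, ω ⊆ E → CntHyp (ω ∪ V) E v Gt m Bl G x r M (Kv ω) (Kf ω)) →
    (∀ i, 0 ≤ r i) → (∀ i, Λ * (r i + 1) ≤ M i) → (∀ i, OneType E V (G i) (x i) (M i)) →
    Ex (fun _ => (1 / 2 : ℝ)) E (fun ω => (4 : ℝ) ^ (Lp (ω ∪ V) v).ncard) ≤
      C * ((R : ℝ) + 1) ^ (25 / 32 : ℝ) := by
  classical
  choose Λ C hΛ hC h using count_moment
  have hs1 : ∀ m ∈ range (l + 1), Λ m ≤ ∑ m ∈ range (l + 1), Λ m := fun m hm =>
    single_le_sum (f := Λ) (fun i _ => by have := hΛ i; omega) hm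
  have hs2 : ∀ m ∈ range (l + 1), C m ≤ ∑ m ∈ range (l + 1), C m := fun m hm =>
    single_le_sum (f := C) (fun i _ => (hC i).le) hm
  have h00 : (0 : ℕ) ∈ range (l + 1) := mem_range.2 (by omega)
  have hCs : 0 < ∑ m ∈ range (l + 1), C m := lt_of_lt_of_le (hC 0) (hs2 0 h00)
  refine ⟨∑ m ∈ range (l + 1), Λ m, 4 ^ g * ((∑ m ∈ range (l + 1), C m) * ((A : ℝ) + 1)),
    (hΛ 0).trans (hs1 0 h00), by positivity, ?_⟩
  intro R R' E V o v hR hd hodd hbox m hm Gt hG Bl G x r M Kv Kf hyp hr hM hT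
  have hmr : m ∈ range (l + 1) := mem_range.2 (by omega)
  have h1 := h m R' E V o v hd hodd hbox Gt Bl G x r M Kv Kf hyp hr (fun i =>
    le_trans (mul_le_mul_of_nonneg_right (hs1 m hmr) (by have := hr i; omega)) (hM i)) hT
  refine h1.trans ?_
  have h2 : (4 : ℝ) ^ Gt.card ≤ 4 ^ g := pow_le_pow_right₀ (by norm_num) hG
  have h3 : ((R' : ℝ) + 1) ^ (25 / 32 : ℝ) ≤ ((A : ℝ) + 1) * ((R : ℝ) + 1) ^ (25 / 32 : ℝ) := by
    have h4 : ((R' : ℝ) + 1) ≤ ((A : ℝ) + 1) * ((R : ℝ) + 1) := by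
      have : ((R' + 1 : ℕ) : ℝ) ≤ ((A * (R + 1) : ℕ) : ℝ) := by exact_mod_cast hR
      push_cast at this
      have h5 : (0 : ℝ) ≤ (R : ℝ) := Nat.cast_nonneg R
      linarith
    calc ((R' : ℝ) + 1) ^ (25 / 32 : ℝ) ≤ (((A : ℝ) + 1) * ((R : ℝ) + 1)) ^ (25 / 32 : ℝ) :=
          Real.rpow_le_rpow (by positivity) h4 (by norm_num)
      _ = ((A : ℝ) + 1) ^ (25 / 32 : ℝ) * ((R : ℝ) + 1) ^ (25 / 32 : ℝ) :=
          Real.mul_rpow (by positivity) (by positivity)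
      _ ≤ ((A : ℝ) + 1) * ((R : ℝ) + 1) ^ (25 / 32 : ℝ) := by
          refine mul_le_mul_of_nonneg_right ?_ (by positivity)
          calc ((A : ℝ) + 1) ^ (25 / 32 : ℝ) ≤ ((A : ℝ) + 1) ^ (1 : ℝ) :=
                Real.rpow_le_rpow_of_exponent_le (by
                  have : (0 : ℝ) ≤ (A : ℝ) := Nat.cast_nonneg A
                  linarith) (by norm_num)
            _ = _ := Real.rpow_one _
  calc (4 : ℝ) ^ Gt.card * (C m * ((R' : ℝ) + 1) ^ (25 / 32 : ℝ))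
      ≤ 4 ^ g * ((∑ m ∈ range (l + 1), C m) * (((A : ℝ) + 1) * ((R : ℝ) + 1) ^ (25 / 32 : ℝ))) := by
        refine mul_le_mul h2 (mul_le_mul (hs2 m hmr) h3 (by positivity) hCs.le) ?_ (by positivity)
        exact mul_nonneg (hC m).le (by positivity)
    _ = _ := by ring

section XF

open Pool.Agent.H69.M6b (lbt lbt_inj lbt_odd)
open Pool.Agent.Q1.M6b.Gl Pool.Agent.H30.Mid Pool.Agent.H81.G1
open Pool.Agent.H74.R45 Pool.Agent.H13.R45 Pool.Agent.H33.Q1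

variable {w h j : ℤ} {N : ℕ} {B t : Finset (ℤ × ℤ)}

lemma gE_fst (hj0 : 0 ≤ j) (hj : j ≤ h) {e : ℤ × ℤ} (he : e ∈ gE (BL w j B) (BU w h j B) (1, -1)) :
    -h ≤ e.1 ∧ e.1 ≤ w + 1 := by
  obtain ⟨x, y, rfl⟩ := exists_lbt (gE_odd he)
  rw [Pool.Agent.H81.G1.mem_gE, mem_BL, mem_BU] at he
  unfold lbt
  simp only
  omega

/-- **The moment for the frozen environment `XF`**: at most `l` boxes, at most `g` gates. -/
theorem xf_moment (l g A : ℕ) : ∃ (Λ : ℤ) (C : ℝ), 1 ≤ Λ ∧ 0 < C ∧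
    ∀ (R N : ℕ) (w h j : ℤ) (O : Out w h) (h0 : 0 ≤ j) (h1 : j ≤ h) (j2 : j % 2 = 0)
      (B t : Finset (ℤ × ℤ)) (v : ℤ × ℤ), (N : ℤ) = w → 0 < j → j < h → w ≤ A * R → h ≤ A * R →
    ∀ (m : ℕ), m ≤ l → ∀ (Gt : Finset (ℤ × ℤ)), Gt.card ≤ g →
    ∀ (Bl G : Fin m → Set (ℤ × ℤ)) (x : Fin m → ℤ × ℤ) (r M : Fin m → ℤ)
      (Kv Kf : Finset (ℤ × ℤ) → Set (ℤ × ℤ)),
    (∀ ω, ω ⊆ gE (BL w j B) (BU w h j B) (1, -1) →
      CntHyp (ω ∪ WGl w h j (WF O h0 h1 j2 N B t) (BU w h j B))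
        (gE (BL w j B) (BU w h j B) (1, -1)) v Gt m Bl G x r M (Kv ω) (Kf ω)) →
    (∀ i, 0 ≤ r i) → (∀ i, Λ * (r i + 1) ≤ M i) →
    (∀ i, OneType (gE (BL w j B) (BU w h j B) (1, -1))
      (WGl w h j (WF O h0 h1 j2 N B t) (BU w h j B)) (G i) (x i) (M i)) →
    Ex (fun _ => (1 / 2 : ℝ)) (gE (BL w j B) (BU w h j B) (1, -1)) (fun ω => (4 : ℝ) ^
      (Lp (ω ∪ WGl w h j (WF O h0 h1 j2 N B t) (BU w h j B)) v).ncard) ≤
      C * ((R : ℝ) + 1) ^ (25 / 32 : ℝ) := by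
  obtain ⟨Λ, C, hΛ, hC, H⟩ := count_moment_le l g (2 * A + 4)
  refine ⟨Λ, C, hΛ, hC, ?_⟩
  intro R N w h j O h0 h1 j2 B t v hN g0 g1 hw hh m hm Gt hG Bl G x r M Kv Kf hyp hr hM hT
  have hAR : (0 : ℤ) ≤ A * R := by positivity
  have hw0 := O.hw
  have hh0 := O.hh
  refine H R (w + h + 2).toNat (gE (BL w j B) (BU w h j B) (1, -1))
    (WGl w h j (WF O h0 h1 j2 N B t) (BU w h j B)) (-h) v ?_
    (disj_WGl O h0 h1 j2 hN g0 g1) (fun e he => gE_odd he) ?_ m hm Gt hG Bl G x r M Kv Kf hyp hr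
    hM hT
  · have : (((w + h + 2).toNat + 1 : ℕ) : ℤ) ≤ (((2 * A + 4) * (R + 1) : ℕ) : ℤ) := by
      push_cast
      rw [Int.toNat_of_nonneg (by omega)]
      have h5 : (0 : ℤ) ≤ R := Nat.cast_nonneg R
      have h6 : (0 : ℤ) ≤ A := Nat.cast_nonneg A
      nlinarith
    exact_mod_cast this
  · intro e he
    have h3 := gE_fst h0 h1 he
    rw [Int.toNat_of_nonneg (by omega)]
    omega

end XF

end Pool.Agent.H53.G1
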