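import Mathlib
import Pool.Agent.H46.G1.WBox
import Pool.Agent.H53.G1.CntMom
import Pool.Agent.H30.Mid.Cnt

set_option autoImplicit false
open Finset

/-! # The moment of `4 ^ N` for the frozen environments of the row (B-h)

`T` : the ties which may be open in the frozen state `t`; their boxes (`BA K h j T`) are frozen. -/

namespace Pool.Agent.H53.G1

open Pool.Agent.H75.Perc Pool.Agent.H75.TwoArm Pool.Agent.H34.Q1 Pool.Agent.H99.NC
open Pool.Agent.Q1 Pool.Agent.Q1.M6b.Nest Pool.Agent.Q1.M6b.Gl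
open Pool.Agent.Q1.M6b.Gd (sm vx_sm smv)
open Pool.Agent.H74.R45 Pool.Agent.H13.R45 Pool.Agent.H33.Q1 Pool.Agent.H30.Mid
open Pool.Agent.H46.G1 Pool.Agent.H81.G1
open Pool.Agent.H69.M6b (lbt lbt_inj)

variable {w h j x y K : ℤ} {N : ℕ} {T t ω B : Finset (ℤ × ℤ)} {e v : ℤ × ℤ}

section WF

variable (O : Out w h) (h0 : 0 ≤ j) (h1 : j ≤ h) (j2 : j % 2 = 0)

include O h0 h1 j2 in
lemma WT_L (g0 : 0 < j) (g1 : j < h) (hy0 : -2 ≤ y) (hy1 : y ≤ h) (hx0 : -2 ≤ x) (hx1 : x < w + 2) :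
    lt (x, y) ∈ WT w h j O.Wo ↔ lt (x, y) ∈ WR w h j := by
  have hw := O.hw
  unfold WT WJ
  rw [mem_union, mem_union, mem_OT (by omega) O.w2 O.h2 h0 h1 j2]
  have := O.far x y
  constructor
  · rintro ((h3 | h3) | h3)
    · exact h3
    · exact absurd ⟨hx0, hx1, hy0, hy1⟩ (this h3)
    · omega
  · intro h3; exact Or.inl (Or.inl h3)

/-- open labels of the first layer on the left, above the row -/
lemma WF_left (g0 : 0 < j) (g1 : j < h) (ht : t ∩ Ti w h j ⊆ T) (hy0 : j < y) (hy1 : y + 1 < h)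
    (hl : lt (-1, y) ∈ WF O h0 h1 j2 N B t) : lt (-1, y) ∈ T := by
  have hw := O.hw
  unfold WF fW at hl
  rw [mem_union, mem_inter, mem_sdiff, WT_L O h0 h1 j2 g0 g1 (by omega) (by omega) (by omega)
    (by omega), Pool.Agent.H74.R45.mem_WR, XT_E, mem_ET (by omega) O.w2 O.h2 h0 h1 j2] at hl
  rcases hl with h3 | h3
  · omega
  · exact ht (mem_inter.2 ⟨h3.1, (mem_Ti_L (by omega)).2 (by omega)⟩)

/-- open labels of the second layer on the left -/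
lemma WF_left2 (g0 : 0 < j) (g1 : j < h) (hy0 : j ≤ y) (hy1 : y < h) :
    lt (-2, y) ∈ WF O h0 h1 j2 N B t := by
  have hw := O.hw
  unfold WF fW
  rw [mem_union, WT_L O h0 h1 j2 g0 g1 (by omega) (by omega) (by omega) (by omega)]
  left
  rw [Pool.Agent.H74.R45.mem_WR]
  omega

/-- open labels of the first layer on the right, below the row -/
lemma WF_right (g0 : 0 < j) (g1 : j < h) (ht : t ∩ Ti w h j ⊆ T) (hy0 : -1 ≤ y) (hy1 : y < j - 1)
    (hl : lt (w, y) ∈ WF O h0 h1 j2 N B t) : lt (w, y) ∈ T := by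
  have hw := O.hw
  unfold WF fW at hl
  rw [mem_union, mem_inter, mem_sdiff, WT_L O h0 h1 j2 g0 g1 (by omega) (by omega) (by omega)
    (by omega), Pool.Agent.H74.R45.mem_WR, XT_E, mem_ET (by omega) O.w2 O.h2 h0 h1 j2] at hl
  rcases hl with h3 | h3
  · omega
  · exact ht (mem_inter.2 ⟨h3.1, (mem_Ti_R (by omega)).2 (by omega)⟩)

end WF

/-- boxes of radius zero are empty -/
lemma Bt_nonempty (hw : 2 ≤ w) (h2 : h % 2 = 0) (w2 : w % 2 = 0)
    (j2 : j % 2 = 0) (hT : T ⊆ Ti w h j) (hK : 1 ≤ K) (he : e ∈ T) {l : ℤ × ℤ}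
    (hl : l ∈ Bt K h j T e) : 1 ≤ gD h j T e / K := by
  by_contra hcon
  have hD := gD_pos (by omega) h2 j2 hT he
  have h3 : 0 ≤ gD h j T e / K := Int.ediv_nonneg (by omega) (by omega)
  have h4 : gD h j T e / K = 0 := by omega
  unfold Bt at hl
  rw [h4, mem_HBx, Pool.Agent.H60.Q1.mem_HL] at hl
  omega

/-- the vertex of the mark -/
lemma mark_vx (k : ℤ) : ∀ v : ℤ × ℤ, v = vx (sm true (j - 1) (k - (j - 1) + 1)) →
    v.2 - v.1 = j - 1 ∧ (v.1 + v.2 = k ∨ v.1 + v.2 = k + 1) := by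
  rintro v rfl
  rw [vx_sm]
  unfold smv
  simp only [if_true]
  omega

open Classical in
theorem bh0 (l A : ℕ) : ∃ (K1 : ℤ) (C : ℝ), 4 ≤ K1 ∧ (A : ℤ) ≤ K1 ∧ 0 < C ∧
    ∀ (K : ℤ), K1 ≤ K → ∀ (R N : ℕ) (w h j : ℤ) (O : Out w h) (h0 : 0 ≤ j) (h1 : j ≤ h) (j2 : j % 2 = 0)
      (T t : Finset (ℤ × ℤ)) (k : ℤ), (N : ℤ) = w → 0 < j → j < h → w ≤ A * R → h ≤ A * R →
      h ≤ A * w → T ⊆ Ti w h j → T.card ≤ l → (∀ e ∈ t, Tp w h j (tt e) → e ∈ T) → 0 ≤ k →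
      k + 1 ≤ N →
    Ex (fun _ => (1 / 2 : ℝ)) (gE (BL w j (BA K h j T)) (BU w h j (BA K h j T)) (1, -1))
      (fun ω => (4 : ℝ) ^ (Lp (ω ∪ WGl w h j (WF O h0 h1 j2 N (BA K h j T) t)
        (BU w h j (BA K h j T))) (vx (sm true (j - 1) (k - (j - 1) + 1)))).ncard) ≤
      C * ((R : ℝ) + 1) ^ (25 / 32 : ℝ) := by
  obtain ⟨Λ, C, hΛ, hC, H⟩ := xf_moment l (4 + l) A
  refine ⟨40 * (Λ + 1) * (A + 1), C, by nlinarith, by nlinarith, hC, ?_⟩
  intro K hKK R N w h j O h0 h1 j2 T t k hN g0 g1 hwR hhR hhw hT hTl htp hk0 hk1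
  have ht : t ∩ Ti w h j ⊆ T := by
    intro e he
    rw [mem_inter] at he
    refine htp e he.1 ?_
    rcases Ti_cases he.2 with ⟨y, rfl, m3, m4, m5⟩ | ⟨y, rfl, m3, m4, m5⟩
    · rw [tt_lt]; exact Or.inl ⟨rfl, m3, m4, m5⟩
    · rw [tt_lt]; exact Or.inr ⟨rfl, m3, m4, m5⟩
  have hA0 : (0 : ℤ) ≤ A := Nat.cast_nonneg A
  have hw := O.hw
  have w2 := O.w2
  have h2 := O.h2
  have hK40 : 40 * (Λ + 1) ≤ K := by nlinarith
  have hK4 : 4 ≤ K := by nlinarith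
  have hKw : 40 * (Λ + 1) * h ≤ K * w := by
    refine le_trans ?_ (mul_le_mul_of_nonneg_right hKK (by omega : (0 : ℤ) ≤ w))
    rw [mul_assoc (40 * (Λ + 1))]
    refine mul_le_mul_of_nonneg_left ?_ (by nlinarith)
    nlinarith
  have hAK : (A : ℤ) ≤ K := by nlinarith
  have hhKw : h ≤ K * w := hhw.trans (mul_le_mul_of_nonneg_right hAK (by omega))
  set v := vx (sm true (j - 1) (k - (j - 1) + 1)) with hv
  obtain ⟨v1, v2⟩ := mark_vx (j := j) k v hv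
  set T' := T.filter (fun e => 1 ≤ gD h j T e / K) with hT'
  set en := T'.equivFin with hen
  set ee : Fin T'.card → ℤ × ℤ := fun i => (en.symm i : ℤ × ℤ) with hee
  have hmem : ∀ i, ee i ∈ T ∧ 1 ≤ gD h j T (ee i) / K := fun i =>
    mem_filter.1 (en.symm i).2
  have hsurj : ∀ e ∈ T, 1 ≤ gD h j T e / K → ∃ i, ee i = e := by
    intro e he h3
    refine ⟨en ⟨e, mem_filter.2 ⟨he, h3⟩⟩, ?_⟩
    rw [hee]
    simp
  have hwn : (N : ℤ) = w := hN
  set B := BA K h j T with hB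
  set E := gE (BL w j B) (BU w h j B) (1, -1) with hE
  set V := WGl w h j (WF O h0 h1 j2 N B t) (BU w h j B) with hV
  set Bl : Fin T'.card → Set (ℤ × ℤ) := fun i =>
    if (tt (ee i)).1 = -1 then BlL K h j T (ee i) else BlR K h j T (ee i) with hBl
  set G : Fin T'.card → Set (ℤ × ℤ) := fun i =>
    if (tt (ee i)).1 = -1 then GnL K h j T (ee i) E V else GnR K h j T (ee i) V with hG
  refine H R N w h j O h0 h1 j2 B t v hN g0 g1 hwR hhR T'.card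
    ((card_le_card (filter_subset _ _)).trans hTl) (GtX w h j t)
    ((card_GtX htp).trans (Nat.add_le_add_left hTl 4)) Bl G
    (fun i => cen (ee i)) (fun i => 2 * (gD h j T (ee i) / K) + 1)
    (fun i => Λ * (2 * (gD h j T (ee i) / K) + 2))
    (fun ω => KvX (ω ∪ V) v (GtX w h j t)) (fun ω => KfX (ω ∪ V) v (GtX w h j t)) ?_ ?_ ?_ ?_
  · intro ω hω
    have hKO : ∀ (O' : Set (ℤ × ℤ)) (hO : O' ∈ Lp (ω ∪ V) v), (∀ g ∈ GtX w h j t, g ∉ O') →
        (∀ u ∈ KvX (ω ∪ V) v (GtX w h j t), ixv hO.2.1.toFinset u = 0) ∧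
        ∀ f ∈ KfX (ω ∪ V) v (GtX w h j t), ixf hO.2.1.toFinset f = 0 :=
      fun O' hO hg => ⟨fun u hu => hu O' hO hg, fun f hf => hf O' hO hg⟩
    refine ⟨hKO, ?_, ?_⟩
    · intro O' hO hg c hc hcE hcB
      refine hW_XF O h0 h1 j2 hN g0 g1 hω hcE ?_
      intro hcon
      have hodd : ((lab c).1 + (lab c).2) % 2 = 1 := lab_odd c
      obtain ⟨X, Y, hl⟩ := exists_lbt hodd
      rw [hl] at hcon
      rw [Pool.Agent.H81.G1.mem_gE, mem_inter, mem_inter, lbt_lt, lbt_lt] at hcon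
      rcases hcon with ⟨h3, h4⟩ | ⟨h3, h4⟩
      · rw [lt_mem_RT] at h3
        rw [hB] at h4
        unfold BA at h4
        obtain ⟨e, he, hm⟩ := mem_biUnion.1 h4
        have h5 := Bt_nonempty hw h2 w2 j2 hT (by omega) he hm
        obtain ⟨i, hi⟩ := hsurj e he h5
        rcases Ti_cases (hT he) with ⟨y, rfl, m3, m4, m5⟩ | ⟨y, rfl, m3, m4, m5⟩
        · have h6 := mem_Bt_L hw w2 h2 j2 hT hK4 he hm
          omega
        · refine hcB i ?_
          rw [hBl]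
          simp only
          rw [hi, tt_lt, if_neg (by simp only; omega), hl, lbt_lt]
          exact mem_insert_of_mem hm
      · rw [lt_mem_RT] at h3
        rw [hB] at h4
        unfold BA at h4
        obtain ⟨e, he, hm⟩ := mem_biUnion.1 h4
        have h5 := Bt_nonempty hw h2 w2 j2 hT (by omega) he hm
        obtain ⟨i, hi⟩ := hsurj e he h5
        rcases Ti_cases (hT he) with ⟨y, rfl, m3, m4, m5⟩ | ⟨y, rfl, m3, m4, m5⟩
        · refine hcB i ?_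
          rw [hBl]
          simp only
          rw [hi, tt_lt, if_pos rfl, hl]
          unfold BlL
          rw [Set.mem_ofPred_eq, lbt_tr, lbt_lt]
          exact mem_insert_of_mem hm
        · have h6 := mem_Bt_R hw w2 h2 j2 hT hK4 he hm
          omega
    · intro i
      obtain ⟨he, hr⟩ := hmem i
      rcases Ti_cases (hT he) with ⟨y, hy, m3, m4, m5⟩ | ⟨y, hy, m3, m4, m5⟩
      · rw [hBl, hG]
        simp only
        rw [hy] at he hr ⊢
        rw [tt_lt, if_pos rfl, if_pos rfl]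
        exact box_L hw w2 h2 j2 g0 g1 hT hΛ hK40 hKw he hr hω
          (fun Y a1 a2 a3 => WF_left O h0 h1 j2 g0 g1 ht a1 a2 a3)
          (fun Y a1 a2 => WF_left2 O h0 h1 j2 g0 g1 a1 a2)
          (fun u a1 a2 a3 => kv_left O h0 h1 j2 hN g0 g1 hω a1 a2 a3)
          (fun f a1 a2 a3 => kf_left O h0 h1 j2 hN g0 g1 hω a1 a2 a3)
          (by omega) (by omega) hKO
      · rw [hBl, hG]
        simp only
        rw [hy] at he hr ⊢
        rw [tt_lt, if_neg (by simp only; omega), if_neg (by simp only; omega)]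
        exact box_R hw w2 h2 j2 g0 g1 hT hΛ hK40 hKw he hr
          (fun l hl => not_WF O h0 h1 j2 hN g0 g1 (mem_union_left _ hl))
          (fun Y a1 a2 a3 => WF_right O h0 h1 j2 g0 g1 ht a1 a2 a3)
          (fun u a1 a2 a3 a4 => kv_right O h0 h1 j2 hN g0 g1 hω a1 a2 a3 a4)
          (fun f a1 a2 a3 a4 => kf_right O h0 h1 j2 hN g0 g1 hω a1 a2 a3 a4)
          (by omega) (by omega) hKO
  · intro i
    have := (hmem i).2
    show 0 ≤ 2 * (gD h j T (ee i) / K) + 1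
    omega
  · intro i
    show Λ * (2 * (gD h j T (ee i) / K) + 1 + 1) ≤ Λ * (2 * (gD h j T (ee i) / K) + 2)
    have : 2 * (gD h j T (ee i) / K) + 1 + 1 = 2 * (gD h j T (ee i) / K) + 2 := by ring
    rw [this]
  · intro i
    rw [hG]
    simp only
    split_ifs
    · exact oneType_L
    · exact oneType_R

/-- **B-h**: the moment of `4 ^ N` for the frozen environments of the row `j - 1`. -/
theorem bh (l A : ℕ) : ∃ (K1 : ℤ) (C : ℝ), 4 ≤ K1 ∧ (A : ℤ) ≤ K1 ∧ 0 < C ∧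
    ∀ (K : ℤ), K1 ≤ K → ∀ (R N : ℕ) (w h j : ℤ) (O : Out w h) (h0 : 0 ≤ j) (h1 : j ≤ h) (j2 : j % 2 = 0)
      (T t : Finset (ℤ × ℤ)) (k : ℤ), (N : ℤ) = w → 0 < j → j < h → w ≤ A * R → h ≤ A * R →
      h ≤ A * w → T ⊆ Ti w h j → T.card ≤ l → t ∩ Ti w h j ⊆ T → 0 ≤ k → k + 1 ≤ N →
    Ex (fun _ => (1 / 2 : ℝ)) (gE (BL w j (BA K h j T)) (BU w h j (BA K h j T)) (1, -1))
      (fun ω => (4 : ℝ) ^ (Lp (ω ∪ WGl w h j (WF O h0 h1 j2 N (BA K h j T) t)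
        (BU w h j (BA K h j T))) (vx (sm true (j - 1) (k - (j - 1) + 1)))).ncard) ≤
      C * ((R : ℝ) + 1) ^ (25 / 32 : ℝ) := by
  obtain ⟨K, C, hK, hAK, hC, H⟩ := bh0 l A
  refine ⟨K, C, hK, hAK, hC, ?_⟩
  intro K' hKK R N w h j O h0 h1 j2 T t k hN g0 g1 hwR hhR hhw hT hTl ht hk0 hk1
  have hw := O.hw
  have hWF : WF O h0 h1 j2 N (BA K' h j T) t = WF O h0 h1 j2 N (BA K' h j T) (t ∩ ET w h j) := by
    unfold WF fW
    rw [XT_E, inter_assoc, inter_eq_right.2 (sdiff_subset : ET w h j \ _ ⊆ ET w h j)]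
  rw [hWF]
  refine H K' hKK R N w h j O h0 h1 j2 T (t ∩ ET w h j) k hN g0 g1 hwR hhR hhw hT hTl ?_ hk0 hk1
  intro e he hp
  rw [mem_inter] at he
  obtain ⟨x, y, rfl⟩ := exists_lt (odd_EJ (ET_sub he.2))
  rw [tt_lt] at hp
  unfold Tp at hp
  simp only at hp
  refine ht (mem_inter.2 ⟨he.1, ?_⟩)
  rcases hp with ⟨rfl, hp⟩ | ⟨rfl, hp⟩
  · exact (mem_Ti_L (by omega)).2 hp
  · exact (mem_Ti_R (by omega)).2 hp

/-- `bh` in the form used for the frozen bound -/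
theorem bh' (l A : ℕ) : ∃ (K1 : ℤ) (C : ℝ), 4 ≤ K1 ∧ (A : ℤ) ≤ K1 ∧ 0 < C ∧
    ∀ (K : ℤ), K1 ≤ K → ∀ (R N : ℕ) (w h j : ℤ) (O : Out w h) (h0 : 0 ≤ j) (h1 : j ≤ h)
      (j2 : j % 2 = 0) (v t : Finset (ℤ × ℤ)) (k : ℤ), (N : ℤ) = w → 0 < j → j < h →
      w ≤ A * R → h ≤ A * R → h ≤ A * w → v ∈ powersetCard l (Ti w h j) →
      t ⊆ v.biUnion (Bt K h j v) ∪ v ∪ {lt (-1, j), lt (-1, h - 1)} → 0 ≤ k → k + 1 ≤ N →
    Ex (fun _ => (1 / 2 : ℝ)) (gE (BL w j (v.biUnion (Bt K h j v)))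
      (BU w h j (v.biUnion (Bt K h j v))) (1, -1))
      (fun ω => (4 : ℝ) ^ (Lp (ω ∪ WGl w h j (WF O h0 h1 j2 N (v.biUnion (Bt K h j v)) t)
        (BU w h j (v.biUnion (Bt K h j v)))) (vx (sm true (j - 1) (k - (j - 1) + 1)))).ncard) ≤
      C * ((R : ℝ) + 1) ^ (25 / 32 : ℝ) := by
  obtain ⟨K1, C, hK1, hAK, hC, H⟩ := bh l A
  refine ⟨K1, C, hK1, hAK, hC, ?_⟩
  intro K hKK R N w h j O h0 h1 j2 v t k hN g0 g1 hwR hhR hhw hv ht hk0 hk1
  obtain ⟨hv1, hv2⟩ := mem_powersetCard.1 hv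
  have hw := O.hw
  have hh2 := O.h2
  refine H K hKK R N w h j O h0 h1 j2 v t k hN g0 g1 hwR hhR hhw hv1 hv2.le ?_ hk0 hk1
  intro e he
  rw [mem_inter] at he
  have h3 := ht he.1
  rw [mem_union, mem_union] at h3
  rcases h3 with (h3 | h3) | h3
  · exfalso
    obtain ⟨e', he', hm⟩ := mem_biUnion.1 h3
    have hT' := Ti_cases (hv1 he')
    rcases Ti_cases he.2 with ⟨y, rfl, m3, m4, m5⟩ | ⟨y, rfl, m3, m4, m5⟩ <;>
      rcases hT' with ⟨y', rfl, n3, n4, n5⟩ | ⟨y', rfl, n3, n4, n5⟩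
    · have := mem_Bt_L hw O.w2 hh2 j2 hv1 (by omega) he' hm
      omega
    · have := mem_Bt_R hw O.w2 hh2 j2 hv1 (by omega) he' hm
      omega
    · have := mem_Bt_L hw O.w2 hh2 j2 hv1 (by omega) he' hm
      omega
    · have := mem_Bt_R hw O.w2 hh2 j2 hv1 (by omega) he' hm
      omega
  · exact h3
  · exfalso
    rw [mem_insert, mem_singleton] at h3
    rcases h3 with h3 | h3
    · rw [h3, mem_Ti_L (by omega)] at he
      omega
    · rw [h3, mem_Ti_L (by omega)] at he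
      omega

end Pool.Agent.H53.G1
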